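import Pool.Agent.X323.PP.Deg

set_option autoImplicit false

/-!
Curves on `ℙ¹ × ℙ¹` over `ℚ` with dense rational points.
-/

namespace Pool.Agent.X323.PP

open Finset MvPolynomial Pool.Agent.W231.V Pool.Agent.X323.TV

section
variable {K : Type} [Field K]

theorem euler_bi {F : MvPolynomial (Fin 2 × Fin 2) K} {d : Fin 2 → ℕ} (hF : BiHom F d)
    (l : Fin 2) (u : Fin 2 × Fin 2 → K) :
    u (l, 0) * eval u (pderiv (l, 0) F) + u (l, 1) * eval u (pderiv (l, 1) F) =
      d l * eval u F := by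
  have h : F.IsWeightedHomogeneous (fun p : Fin 2 × Fin 2 => if p.1 = l then 1 else 0) (d l) := by
    intro m hm
    rw [Finsupp.weight_apply, Finsupp.sum_fintype _ _ (by simp), Fintype.sum_prod_type]
    rw [← hF m hm l]
    fin_cases l <;> simp [Fin.sum_univ_two]
  have h1 := congrArg (eval u) h.sum_weight_X_mul_pderiv
  rw [map_sum, Fintype.sum_prod_type, map_nsmul, nsmul_eq_mul] at h1
  rw [← h1]
  fin_cases l <;> simp [Fin.sum_univ_two]

theorem hom_of_bi {F : MvPolynomial (Fin 2 × Fin 2) K} {d : Fin 2 → ℕ} (hF : BiHom F d) :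
    F.IsHomogeneous (d 0 + d 1) := by
  intro m hm
  rw [Finsupp.weight_apply, Finsupp.sum_fintype _ _ (by simp), Fintype.sum_prod_type,
    ← hF m hm 0, ← hF m hm 1]
  simp [Fin.sum_univ_two]

variable [CharZero K]

/-- a curve which contains no corner contains no coset whose closure passes through corners -/
theorem onCurve_ne {F : MvPolynomial (Fin 2 × Fin 2) K} {d : Fin 2 → ℕ} (hF : BiHom F d)
    (hcorner : ∀ c : Fin 2 → Fin 2, eval (fun p => if p.2 = c p.1 then (1 : K) else 0) F ≠ 0)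
    {u : Fin 2 × Fin 2 → K} (hu : ∀ p, u p ≠ 0) {κ : Fin 2 × Fin 2 → ℕ} (c c' : Fin 2 → Fin 2)
    (hcc : ∀ l, c l ≠ c' l) (h1 : ∀ l, 0 < κ (l, c l)) (h0 : ∀ l, κ (l, c' l) = 0) :
    onCurve u κ F ≠ 0 := by
  classical
  have hall : ∀ p : Fin 2 × Fin 2, p.2 ≠ c p.1 → p.2 = c' p.1 := by
    rintro ⟨l, m⟩ h
    have k1 : ((c l : Fin 2) : ℕ) ≠ c' l := fun h' => hcc l (Fin.ext h')
    have k2 : ((m : Fin 2) : ℕ) ≠ c l := fun h' => h (Fin.ext h')
    refine Fin.ext ?_
    have := m.2
    have := (c l).2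
    have := (c' l).2
    simp only
    omega
  intro hzero
  set κ' : Fin 2 × Fin 2 → ℕ := fun p => if p.2 = c p.1 then 0 else κ (p.1, c p.1) with hκ'
  have hs : ∀ s : K, s ≠ 0 → (onCurve u κ' F).eval s = 0 := by
    intro s hs
    rw [eval_onCurve]
    have h2 := eval_biscale hF (fun l => s ^ κ (l, c l)) (fun p => u p * (s⁻¹) ^ κ p)
    have h3 : (fun p : Fin 2 × Fin 2 => (fun l => s ^ κ (l, c l)) p.1 * (u p * (s⁻¹) ^ κ p)) =
        fun p => u p * s ^ κ' p := by
      funext p
      by_cases h : p.2 = c p.1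
      · have e1 : κ (p.1, c p.1) = κ p := by rw [← h]
        simp only [hκ', if_pos h, e1, pow_zero, mul_one, inv_pow]
        field_simp
      · have h4 := hall p h
        have e1 : κ p = 0 := by
          have := h0 p.1
          rw [← h4] at this
          exact this
        simp only [hκ', if_neg h, e1, pow_zero, mul_one]
        ring
    rw [h3] at h2
    rw [h2, ← eval_onCurve, hzero, Polynomial.eval_zero, mul_zero]
  have hp : onCurve u κ' F = 0 := by
    have h2 : Polynomial.X * onCurve u κ' F = 0 := by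
      refine Polynomial.funext fun s => ?_
      rw [Polynomial.eval_mul, Polynomial.eval_X, Polynomial.eval_zero]
      by_cases h : s = 0
      · rw [h, zero_mul]
      · rw [hs s h, mul_zero]
    exact (mul_eq_zero.1 h2).resolve_left Polynomial.X_ne_zero
  have h4 := congrArg (Polynomial.eval (0 : K)) hp
  rw [eval_onCurve, Polynomial.eval_zero] at h4
  have h5 := eval_biscale hF (fun l => u (l, c l)) (fun p => if p.2 = c p.1 then (1 : K) else 0)
  have h6 : (fun p : Fin 2 × Fin 2 => (fun l => u (l, c l)) p.1 *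
      (if p.2 = c p.1 then (1 : K) else 0)) = fun p => u p * (0 : K) ^ κ' p := by
    funext p
    by_cases h : p.2 = c p.1
    · have e1 : u (p.1, c p.1) = u p := by rw [← h]
      simp only [hκ', if_pos h, e1, pow_zero, mul_one]
    · simp only [hκ', if_neg h, mul_zero]
      rw [zero_pow (h1 p.1).ne', mul_zero]
  rw [h6, h4] at h5
  exact mul_ne_zero (Finset.prod_ne_zero_iff.2 fun l _ => pow_ne_zero _ (hu _)) (hcorner c) h5.symm

/-- the polynomial does not divide its derivatives -/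
theorem not_dvd_pderiv {F : MvPolynomial (Fin 2 × Fin 2) K} {d : Fin 2 → ℕ} (hF : BiHom F d)
    (hd : ∀ l, 1 ≤ d l)
    (hcorner : ∀ c : Fin 2 → Fin 2, eval (fun p => if p.2 = c p.1 then (1 : K) else 0) F ≠ 0)
    (l : Fin 2) : ¬ F ∣ pderiv (l, 0) F := by
  intro hdvd
  have h0 : pderiv (l, 0) F ≠ 0 := by
    intro h
    have h1 := euler_bi hF l (fun p => if p.2 = (fun _ => 0 : Fin 2 → Fin 2) p.1 then (1 : K) else 0)
    rw [h] at h1
    simp only [map_zero, mul_zero, zero_add] at h1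
    have h2 := hcorner (fun _ => 0)
    have h3 : (d l : K) ≠ 0 := by
      have := hd l
      exact_mod_cast (by omega : d l ≠ 0)
    simp only [one_ne_zero, if_false, zero_mul] at h1
    exact mul_ne_zero h3 h2 h1.symm
  have hF0 : F ≠ 0 := by
    rintro rfl
    exact h0 (map_zero _)
  have hh := hom_of_bi hF
  have hh2 := hh.pderiv (i := (l, 0))
  obtain ⟨Q, hQ⟩ := hdvd
  have hQ0 : Q ≠ 0 := by
    rintro rfl
    exact h0 (by rw [hQ, mul_zero])
  have h3 := totalDegree_mul_of_isDomain hF0 hQ0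
  rw [← hQ, hh.totalDegree hF0, hh2.totalDegree h0] at h3
  have := hd 0
  omega

end

/-- through the points of a curve with dense rational points there pass tangent cosets -/
theorem exists_tangent {F : MvPolynomial (Fin 2 × Fin 2) ℚ} {d : Fin 2 → ℕ} (hF : BiHom F d)
    (hcorner : ∀ c : Fin 2 → Fin 2, eval (fun p => if p.2 = c p.1 then (1 : ℚ) else 0) F ≠ 0)
    {u : Fin 2 × Fin 2 → ℚ} (hu : ∀ p, u p ≠ 0) (hFu : eval u F = 0)
    (hD : ∀ l, eval u (pderiv (l, 0) F) ≠ 0) :
    ∃ κ : Fin 2 × Fin 2 → ℕ, (∀ l, κ (l, 0) = 0 ∨ κ (l, 1) = 0) ∧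
      ∑ p, (κ p : ℚ) * u p * eval u (pderiv p F) = 0 ∧ onCurve u κ F ≠ 0 := by
  classical
  set w : Fin 2 → ℚ := fun l => u (l, 0) * eval u (pderiv (l, 0) F) with hw
  have hw0 : ∀ l, w l ≠ 0 := fun l => mul_ne_zero (hu _) (hD l)
  have hw1 : ∀ l, u (l, 1) * eval u (pderiv (l, 1) F) = - w l := by
    intro l
    have h := euler_bi hF l u
    rw [hFu, mul_zero] at h
    rw [hw]
    linarith
  set r : ℚ := - w 1 / w 0 with hr
  have hr0 : r ≠ 0 := div_ne_zero (neg_ne_zero.2 (hw0 1)) (hw0 0)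
  have hrw : (r.num : ℚ) * w 0 + r.den * w 1 = 0 := by
    have h1 : r * w 0 = - w 1 := by
      rw [hr]
      field_simp [hw0 0]
    have h2 : r * r.den = r.num := Rat.mul_den_eq_num r
    linear_combination (-(w 0)) * h2 + (r.den : ℚ) * h1
  set κ : Fin 2 × Fin 2 → ℕ := fun p => if p.1 = 0 then (if p.2 = 0 then r.num.toNat else
    (-r.num).toNat) else (if p.2 = 0 then r.den else 0) with hκ
  have k00 : κ (0, 0) = r.num.toNat := by simp [hκ]
  have k01 : κ (0, 1) = (-r.num).toNat := by simp [hκ]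
  have k10 : κ (1, 0) = r.den := by simp [hκ]
  have k11 : κ (1, 1) = 0 := by simp [hκ]
  have hn0 : r.num ≠ 0 := Rat.num_ne_zero.2 hr0
  refine ⟨κ, ?_, ?_, ?_⟩
  · intro l
    fin_cases l
    · rw [show ((⟨0, by omega⟩ : Fin 2), (0 : Fin 2)) = (0, 0) from rfl,
        show ((⟨0, by omega⟩ : Fin 2), (1 : Fin 2)) = (0, 1) from rfl, k00, k01]
      omega
    · right
      exact k11
  · have hcast : ((r.num.toNat : ℕ) : ℚ) - (((-r.num).toNat : ℕ) : ℚ) = r.num := by
      have : ((r.num.toNat : ℕ) : ℤ) - (((-r.num).toNat : ℕ) : ℤ) = r.num := by omega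
      exact_mod_cast this
    rw [Fintype.sum_prod_type]
    simp only [Fin.sum_univ_two]
    rw [k00, k01, k10, k11]
    have e0 := hw1 0
    have e1 : u (0, 0) * eval u (pderiv (0, 0) F) = w 0 := rfl
    have e2 : u (1, 0) * eval u (pderiv (1, 0) F) = w 1 := rfl
    have e3 : ((r.num.toNat : ℕ) : ℚ) * u (0, 0) * eval u (pderiv (0, 0) F) +
        (((-r.num).toNat : ℕ) : ℚ) * u (0, 1) * eval u (pderiv (0, 1) F) = r.num * w 0 := by
      rw [mul_assoc, mul_assoc, e0, e1, ← hcast]
      ring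
    have e4 : ((r.den : ℕ) : ℚ) * u (1, 0) * eval u (pderiv (1, 0) F) = r.den * w 1 := by
      rw [mul_assoc, e2]
    rw [e3, e4]
    push_cast
    rw [zero_mul, zero_mul, add_zero]
    exact hrw
  · rcases lt_or_gt_of_ne hn0 with h | h
    · refine onCurve_ne hF hcorner hu (fun l => if l = 0 then 1 else 0)
        (fun l => if l = 0 then 0 else 1) ?_ ?_ ?_
      · intro l
        fin_cases l <;> simp
      · intro l
        fin_cases l
        · change 0 < κ (0, 1)
          rw [k01]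
          omega
        · change 0 < κ (1, 0)
          rw [k10]
          exact r.den_pos
      · intro l
        fin_cases l
        · change κ (0, 0) = 0
          rw [k00]
          omega
        · exact k11
    · refine onCurve_ne hF hcorner hu (fun _ => 0) (fun _ => 1) ?_ ?_ ?_
      · intro l
        simp
      · intro l
        fin_cases l
        · change 0 < κ (0, 0)
          rw [k00]
          omega
        · change 0 < κ (1, 0)
          rw [k10]
          exact r.den_pos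
      · intro l
        fin_cases l
        · change κ (0, 1) = 0
          rw [k01]
          omega
        · exact k11

open NumberField IsDedekindDomain Height in
/-- no curve `G = 0` serves all `ε` -/
theorem dense {F : MvPolynomial (Fin 2 × Fin 2) ℚ} {d : Fin 2 → ℕ} (hF : BiHom F d)
    (hd : ∀ l, 1 ≤ d l) (hirr : Irreducible F)
    (hcorner : ∀ c : Fin 2 → Fin 2, eval (fun p => if p.2 = c p.1 then (1 : ℚ) else 0) F ≠ 0)
    (hdense : ∀ P : MvPolynomial (Fin 2 × Fin 2) ℚ,
      (∀ u : Fin 2 × Fin 2 → ℚ, (∀ p, u p ≠ 0) → eval u F = 0 → eval u P = 0) → F ∣ P)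
    {G : MvPolynomial (Fin 2 × Fin 2) ℚ} (hG0 : G ≠ 0) :
    ∃ ε : ℝ, 0 < ε ∧ ∀ C : ℝ, ¬ ∀ x : Fin 2 × Fin 2 → ℚ, (∀ p, x p ≠ 0) → eval x F ≠ 0 →
      eval x G ≠ 0 → ∑ l, (d l : ℝ) * logHeight ![x (l, 0), x (l, 1)] -
        ε * (∑ l, logHeight ![x (l, 0), x (l, 1)] / Module.finrank ℚ ℚ) - C ≤
        ∑ᶠ v : HeightOneSpectrum (𝓞 ℚ), min (ell v) (lam2 v d F x) := by
  classical
  obtain ⟨j, G', hG', hGj⟩ := WfDvdMonoid.max_power_factor hG0 hirr
  have hprime : Prime F := hirr.prime
  have hnd : ¬ F ∣ G' * pderiv (0, 0) F * pderiv (1, 0) F := by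
    intro h
    rcases hprime.dvd_or_dvd h with h | h
    · rcases hprime.dvd_or_dvd h with h | h
      · exact hG' h
      · exact not_dvd_pderiv hF hd hcorner 0 h
    · exact not_dvd_pderiv hF hd hcorner 1 h
  obtain ⟨u, hu, hFu, hPu⟩ : ∃ u : Fin 2 × Fin 2 → ℚ, (∀ p, u p ≠ 0) ∧ eval u F = 0 ∧
      eval u (G' * pderiv (0, 0) F * pderiv (1, 0) F) ≠ 0 := by
    by_contra hcon
    push Not at hcon
    exact hnd (hdense _ hcon)
  rw [map_mul, map_mul] at hPu
  have hD : ∀ l, eval u (pderiv (l, 0) F) ≠ 0 := by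
    intro l
    fin_cases l
    · exact right_ne_zero_of_mul (left_ne_zero_of_mul hPu)
    · exact right_ne_zero_of_mul hPu
  obtain ⟨κ, hκ0, htan, hne⟩ := exists_tangent hF hcorner hu hFu hD
  set M : ℕ := ∑ l, mx κ l with hM
  refine ⟨1 / (2 * (M + 1)), by positivity, fun C hineq => ?_⟩
  have hε : (1 / (2 * ((M : ℝ) + 1))) * (M : ℕ) < Module.finrank ℚ ℚ := by
    rw [Module.finrank_self, div_mul_eq_mul_div, one_mul, div_lt_iff₀ (by positivity)]
    push_cast
    have : (0 : ℝ) ≤ M := Nat.cast_nonneg _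
    linarith
  have h := core hF hineq hu hκ0 hFu htan hε
  rw [map_mul] at h
  have h1 := (mul_eq_zero.1 h).resolve_right hne
  rw [hGj, map_mul, map_pow] at h1
  have h2 := (mul_eq_zero.1 h1).resolve_left (pow_ne_zero _ hne)
  have h3 := congrArg (Polynomial.eval (1 : ℚ)) h2
  rw [eval_onCurve_one, Polynomial.eval_zero] at h3
  exact left_ne_zero_of_mul (left_ne_zero_of_mul hPu) h3

end Pool.Agent.X323.PP
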