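import Pool.Agent.X323.TV.Core
import Pool.Agent.W231.G.Cnt
import Pool.Agent.W231.V.Alg

set_option autoImplicit false

/-!
The truncated inequality on `ℙ¹ × ℙ¹` over a number field fails on the cosets of one-dimensional
tori which are tangent to a component of the divisor.
-/

namespace Pool.Agent.X323.PP

open NumberField IsDedekindDomain Height Finset MvPolynomial Pool.Agent.W231.V Pool.Agent.W231.G
  Pool.Agent.X323.TV

/-- bihomogeneous of bidegree `d`; the coordinates on the factor `l` are the variables `(l, i)` -/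
def BiHom {R : Type} [CommSemiring R] (F : MvPolynomial (Fin 2 × Fin 2) R) (d : Fin 2 → ℕ) :
    Prop :=
  ∀ m, coeff m F ≠ 0 → ∀ l, m (l, 0) + m (l, 1) = d l

/-- the larger exponent on the factor `l` -/
def mx (κ : Fin 2 × Fin 2 → ℕ) (l : Fin 2) : ℕ := max (κ (l, 0)) (κ (l, 1))

theorem natDegree_bi {R : Type} [CommRing R] (u : Fin 2 × Fin 2 → R) (κ : Fin 2 × Fin 2 → ℕ)
    (P : MvPolynomial (Fin 2 × Fin 2) R) {d : Fin 2 → ℕ} (hP : BiHom P d) :
    (onCurve u κ P).natDegree ≤ ∑ l, d l * mx κ l := by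
  rw [onCurve_eq_sum]
  refine Polynomial.natDegree_sum_le_of_forall_le _ _ fun s hs => ?_
  refine (Polynomial.natDegree_C_mul_X_pow_le _ _).trans ?_
  have h := hP s (mem_support_iff.1 hs)
  rw [Fintype.sum_prod_type]
  refine Finset.sum_le_sum fun l _ => ?_
  rw [Fin.sum_univ_two, ← h l]
  have h1 : κ (l, 0) ≤ mx κ l := le_max_left _ _
  have h2 : κ (l, 1) ≤ mx κ l := le_max_right _ _
  nlinarith [Nat.mul_le_mul_right (s (l, 0)) h1, Nat.mul_le_mul_right (s (l, 1)) h2]

variable {K : Type} [Field K] [NumberField K]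

/-- the local height of the divisor `∏ x (l, i) F = 0` -/
noncomputable def lam2 (v : HeightOneSpectrum (𝓞 K)) (d : Fin 2 → ℕ)
    (F : MvPolynomial (Fin 2 × Fin 2) K) (x : Fin 2 × Fin 2 → K) : ℝ :=
  -Real.log (FinitePlace.mk v ((∏ p, x p) * eval x F) /
    ∏ l, max (FinitePlace.mk v (x (l, 0))) (FinitePlace.mk v (x (l, 1))) ^ (d l + 2))

/-- the heights of the coordinates -/
theorem height_coord (c0 c1 : K) (h0 : c0 ≠ 0) (h1 : c1 ≠ 0) {a b : ℕ} (hab : a = 0 ∨ b = 0)
    {t : ℕ} (ht : 1 ≤ t) :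
    |logHeight ![c0 * (t : K) ^ a, c1 * (t : K) ^ b] -
      (totalWeight K : ℝ) * (max a b * Real.log t)| ≤ logHeight₁ (c0 / c1) := by
  have ht0 : (t : K) ≠ 0 := by
    have : t ≠ 0 := by omega
    exact_mod_cast this
  rw [← logHeight₁_div_eq_logHeight]
  have key : ∀ (c y : K), c ≠ 0 → |logHeight₁ (c * y) - logHeight₁ y| ≤ logHeight₁ c := by
    intro c y hc
    have k1 := logHeight₁_mul_le c y
    have k2 := logHeight₁_mul_le c⁻¹ (c * y)
    rw [← mul_assoc, inv_mul_cancel₀ hc, one_mul, logHeight₁_inv] at k2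
    rw [abs_le]
    constructor <;> linarith
  have hc : c0 / c1 ≠ 0 := div_ne_zero h0 h1
  rcases hab with rfl | rfl
  · have e1 : c0 * (t : K) ^ 0 / (c1 * (t : K) ^ b) = c0 / c1 * ((t : K) ^ b)⁻¹ := by
      field_simp
    have e2 : logHeight₁ ((t : K) ^ b)⁻¹ = (totalWeight K : ℝ) * (max (0 : ℕ) b * Real.log t) := by
      rw [logHeight₁_inv, logHeight₁_pow, logHeight₁_nat ht]
      have : ((max 0 b : ℕ) : ℝ) = b := by simp
      push_cast at this ⊢
      rw [this]
      ring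
    rw [e1]
    push_cast at e2 ⊢
    rw [← e2]
    exact key _ _ hc
  · have e1 : c0 * (t : K) ^ a / (c1 * (t : K) ^ 0) = c0 / c1 * (t : K) ^ a := by
      field_simp
    have e2 : logHeight₁ ((t : K) ^ a) = (totalWeight K : ℝ) * (max a (0 : ℕ) * Real.log t) := by
      rw [logHeight₁_pow, logHeight₁_nat ht]
      have : ((max a 0 : ℕ) : ℝ) = a := by simp
      push_cast at this ⊢
      rw [this]
      ring
    rw [e1]
    push_cast at e2 ⊢
    rw [← e2]
    exact key _ _ hc

theorem weight_eq' : (totalWeight K : ℝ) = (Module.finrank ℚ K : ℝ) := by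
  rw [← sum_mult]
  exact_mod_cast InfinitePlace.sum_mult_eq

/-- the truncated counting function on the coset -/
theorem count_le2 {d : Fin 2 → ℕ} {F : MvPolynomial (Fin 2 × Fin 2) K} (u : Fin 2 × Fin 2 → K)
    (κ : Fin 2 × Fin 2 → ℕ) (hu : ∀ p, u p ≠ 0) {Q : Polynomial K}
    (hQ : onCurve u κ F = (Polynomial.X - Polynomial.C 1) ^ 2 * Q) {n : ℕ}
    (hn : Q.natDegree ≤ n) :
    ∃ C : ℝ, ∀ q : ℕ, eval (fun p => u p * ((2 ^ q : ℕ) : K) ^ κ p) F ≠ 0 →
      ∑ᶠ v : HeightOneSpectrum (𝓞 K), min (ell v)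
        (lam2 v d F (fun p => u p * ((2 ^ q : ℕ) : K) ^ κ p)) ≤
        (totalWeight K : ℝ) * ((1 + n) * Real.log ((2 ^ q : ℕ) : ℝ)) + C := by
  classical
  obtain ⟨C1, hC1⟩ := height_eval_le (Polynomial.X - Polynomial.C 1 : Polynomial K) (n := 1)
    (by compute_degree)
  obtain ⟨C2, hC2⟩ := height_eval_le Q hn
  set cs : Finset K := {2} ∪ Finset.univ.image u ∪ Q.support.image Q.coeff with hcs
  obtain ⟨T0, hT0⟩ := exists_bad cs
  have hm2 : (2 : K) ∈ cs := by simp [hcs]
  have hmu : ∀ p, u p ∈ cs := fun p => by simp [hcs]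
  have hcQ : ∀ v ∉ T0, ∀ i, fv v (Q.coeff i) ≤ 1 := by
    intro v hv i
    by_cases h : Q.coeff i = 0
    · rw [h, map_zero]; exact zero_le_one
    · refine (hT0 v hv _ ?_).2
      simp only [hcs, Finset.mem_union]
      exact Or.inr (Finset.mem_image.2 ⟨i, Polynomial.mem_support_iff.2 h, rfl⟩)
  refine ⟨∑ v ∈ T0, ell v + C1 + C2, fun q hFx => ?_⟩
  set t : ℕ := 2 ^ q with ht
  have ht1 : 1 ≤ t := Nat.one_le_two_pow
  set x : Fin 2 × Fin 2 → K := fun p => u p * (t : K) ^ κ p with hx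
  have hFev : eval x F = ((t : K) - 1) ^ 2 * Q.eval (t : K) := by
    rw [hx, ← eval_onCurve, hQ]
    simp
  rw [hFev] at hFx
  have n1 : (t : K) - 1 ≠ 0 := by
    intro h
    rw [h] at hFx
    simp at hFx
  have n2 : Q.eval (t : K) ≠ 0 := right_ne_zero_of_mul hFx
  have hft : ∀ v ∉ T0, fv v (t : K) = 1 := by
    intro v hv
    have : (t : K) = 2 ^ q := by rw [ht]; push_cast; rfl
    rw [this, map_pow, (hT0 v hv 2 hm2).1 two_ne_zero, one_pow]
  have key : ∀ v ∉ T0, (fv v ((Polynomial.X - Polynomial.C 1 : Polynomial K).eval (t : K)) < 1 ∨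
      fv v (Q.eval (t : K)) < 1) ∨ min (ell v) (lam2 v d F x) = 0 := by
    intro v hv
    by_cases hcon : fv v ((Polynomial.X - Polynomial.C 1 : Polynomial K).eval (t : K)) < 1 ∨
      fv v (Q.eval (t : K)) < 1
    · exact Or.inl hcon
    right
    push Not at hcon
    obtain ⟨q1, q2⟩ := hcon
    have ftv := hft v hv
    have i1 : fv v ((t : K) - 1) ≤ 1 := by
      have := fv_poly_le v (Polynomial.X - Polynomial.C 1 : Polynomial K) (by
        intro n
        rw [Polynomial.coeff_sub, Polynomial.coeff_X, Polynomial.coeff_C]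
        split_ifs <;> simp) ftv.le
      simpa using this
    have i2 : fv v (Q.eval (t : K)) ≤ 1 := fv_poly_le v Q (hcQ v hv) ftv.le
    have q1' : fv v ((t : K) - 1) = 1 := by
      refine le_antisymm i1 ?_
      simpa using q1
    have hxv : ∀ p, fv v (x p) = 1 := by
      intro p
      rw [hx]
      simp only
      rw [map_mul, map_pow, ftv, one_pow, mul_one, (hT0 v hv _ (hmu p)).1 (hu p)]
    have hval : fv v ((∏ p, x p) * eval x F) = 1 := by
      rw [map_mul, map_prod, Finset.prod_congr rfl fun p _ => hxv p, Finset.prod_const_one,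
        hFev, map_mul, map_pow, q1', le_antisymm i2 q2]
      norm_num
    have hl : lam2 v d F x = 0 := by
      unfold lam2
      have e1 : ∀ p, FinitePlace.mk v (x p) = 1 := hxv
      have e3 : FinitePlace.mk v ((∏ p, x p) * eval x F) = 1 := hval
      rw [e3, Finset.prod_congr rfl fun l _ => by rw [e1, e1, max_self, one_pow],
        Finset.prod_const_one, div_one, Real.log_one, neg_zero]
    rw [hl]
    exact min_eq_right (ell_pos v).le
  have n1' : (Polynomial.X - Polynomial.C 1 : Polynomial K).eval (t : K) ≠ 0 := by simpa using n1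
  have hfin : {v : HeightOneSpectrum (𝓞 K) | v ∈ T0 ∨
      (fv v ((Polynomial.X - Polynomial.C 1 : Polynomial K).eval (t : K)) < 1 ∨
        fv v (Q.eval (t : K)) < 1)}.Finite := by
    refine (T0.finite_toSet.union ((fv_support_finite n1').union (fv_support_finite n2))).subset ?_
    rintro v (h | h | h)
    · exact Or.inl h
    · exact Or.inr (Or.inl h.ne)
    · exact Or.inr (Or.inr h.ne)
  have hsum : ∑ᶠ v : HeightOneSpectrum (𝓞 K), min (ell v) (lam2 v d F x) =
      ∑ v ∈ hfin.toFinset, min (ell v) (lam2 v d F x) := by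
    refine finsum_eq_sum_of_support_subset _ fun v hv => ?_
    rw [Set.Finite.coe_toFinset]
    by_contra hc
    have hc' : ¬ (v ∈ T0 ∨ (fv v ((Polynomial.X - Polynomial.C 1 : Polynomial K).eval (t : K)) < 1 ∨
        fv v (Q.eval (t : K)) < 1)) := hc
    rw [not_or] at hc'
    rcases key v hc'.1 with h | h
    · exact hc'.2 h
    · exact hv h
  rw [hsum]
  refine (Finset.sum_le_sum fun v _ => min_le_left (ell v) (lam2 v d F x)).trans ?_
  have h1 := sum_union_le (Finset.univ : Finset (Fin 2))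
    ![(Polynomial.X - Polynomial.C 1 : Polynomial K).eval (t : K), Q.eval (t : K)] (by
      intro l _
      fin_cases l
      · exact n1'
      · exact n2) T0 hfin.toFinset (by
      intro v hv
      rw [Set.Finite.mem_toFinset] at hv
      rcases hv with h | h | h
      · exact Or.inl h
      · exact Or.inr ⟨0, Finset.mem_univ _, h⟩
      · exact Or.inr ⟨1, Finset.mem_univ _, h⟩)
  rw [Fin.sum_univ_two] at h1
  have g1 := hC1 t ht1
  have g2 := hC2 t ht1
  push_cast at g1 g2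
  refine h1.trans ?_
  change ∑ v ∈ T0, ell v + (logHeight₁ ((Polynomial.X - Polynomial.C 1 : Polynomial K).eval
    (t : K)) + logHeight₁ (Q.eval (t : K))) ≤ _
  nlinarith

theorem core {d : Fin 2 → ℕ} {F : MvPolynomial (Fin 2 × Fin 2) K} (hF : BiHom F d)
    {G : MvPolynomial (Fin 2 × Fin 2) K} {ε C : ℝ}
    (hineq : ∀ x : Fin 2 × Fin 2 → K, (∀ p, x p ≠ 0) → eval x F ≠ 0 → eval x G ≠ 0 →
      ∑ l, (d l : ℝ) * logHeight ![x (l, 0), x (l, 1)] -
        ε * (∑ l, logHeight ![x (l, 0), x (l, 1)] / Module.finrank ℚ K) - C ≤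
        ∑ᶠ v : HeightOneSpectrum (𝓞 K), min (ell v) (lam2 v d F x))
    {u : Fin 2 × Fin 2 → K} {κ : Fin 2 × Fin 2 → ℕ} (hu : ∀ p, u p ≠ 0)
    (hκ0 : ∀ l, κ (l, 0) = 0 ∨ κ (l, 1) = 0) (hFu : eval u F = 0)
    (htan : ∑ p, (κ p : K) * u p * eval u (pderiv p F) = 0)
    (hε : ε * (∑ l, mx κ l : ℕ) < Module.finrank ℚ K) : onCurve u κ (G * F) = 0 := by
  classical
  by_contra hne
  set p : Polynomial K := onCurve u κ F with hp
  have hp0 : p ≠ 0 := by
    intro h
    apply hne
    rw [map_mul, ← hp, h, mul_zero]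
  have hp1 : p.IsRoot 1 := by
    rw [Polynomial.IsRoot, hp, eval_onCurve_one, hFu]
  obtain ⟨q1, hq1⟩ := Polynomial.dvd_iff_isRoot.2 hp1
  have hq1r : q1.IsRoot 1 := by
    have h1 := derivative_onCurve_one u κ F
    rw [htan, ← hp, hq1, Polynomial.derivative_mul, Polynomial.eval_add, Polynomial.eval_mul,
      Polynomial.eval_mul] at h1
    simpa using h1
  obtain ⟨Q, hQ⟩ := Polynomial.dvd_iff_isRoot.2 hq1r
  have hpQ : p = (Polynomial.X - Polynomial.C 1) ^ 2 * Q := by rw [hq1, hQ]; ring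
  have hQ0 : Q ≠ 0 := by
    rintro rfl
    exact hp0 (by rw [hpQ, mul_zero])
  have hdeg : Q.natDegree + 2 ≤ ∑ l, d l * mx κ l := by
    have h1 : p.natDegree = Q.natDegree + 2 := by
      rw [hpQ, Polynomial.natDegree_mul (pow_ne_zero _ (Polynomial.X_sub_C_ne_zero 1)) hQ0,
        Polynomial.natDegree_pow, Polynomial.natDegree_X_sub_C]
      omega
    rw [← h1]
    exact natDegree_bi u κ F hF
  obtain ⟨c1, hc1⟩ := count_le2 (d := d) u κ hu hpQ le_rfl
  set w : ℝ := (totalWeight K : ℝ) with hw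
  have hwN : (Module.finrank ℚ K : ℝ) = w := weight_eq'.symm
  have hw0 : 0 < w := by
    rw [← hwN]
    exact_mod_cast Module.finrank_pos
  rw [hwN] at hε
  set M : ℝ := ((∑ l, mx κ l : ℕ) : ℝ) with hM
  set γ : Fin 2 → ℝ := fun l => logHeight₁ (u (l, 0) / u (l, 1)) with hγ
  set δ : ℝ := w - ε * M with hδ
  have hδ0 : 0 < δ := by rw [hδ]; linarith
  set C1 : ℝ := c1 + (∑ l, ((d l : ℝ) + |ε| / w) * γ l) + C with hC1
  have hev : ∀ᶠ q : ℕ in Filter.atTop, C1 < (δ * Real.log 2) * q := by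
    have hpos : 0 < δ * Real.log 2 := mul_pos hδ0 (Real.log_pos (by norm_num))
    exact (tendsto_natCast_atTop_atTop.const_mul_atTop hpos).eventually_gt_atTop _
  obtain ⟨q, hq1, hq2⟩ := ((TV.eventually_ne _ hne).and hev).exists
  set t : ℕ := 2 ^ q with ht
  have ht1 : 1 ≤ t := Nat.one_le_two_pow
  have ht0 : (t : K) ≠ 0 := by
    have : t ≠ 0 := by omega
    exact_mod_cast this
  set x : Fin 2 × Fin 2 → K := fun p => u p * (t : K) ^ κ p with hx
  rw [eval_onCurve, map_mul] at hq1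
  have hFx : eval x F ≠ 0 := right_ne_zero_of_mul hq1
  have hGx : eval x G ≠ 0 := left_ne_zero_of_mul hq1
  have hmain := hineq x (fun p => mul_ne_zero (hu p) (pow_ne_zero _ ht0)) hFx hGx
  have hcnt := hc1 q hFx
  have hh : ∀ l, |logHeight ![x (l, 0), x (l, 1)] - w * (mx κ l * Real.log t)| ≤ γ l := by
    intro l
    exact height_coord (K := K) (u (l, 0)) (u (l, 1)) (hu _) (hu _) (hκ0 l) ht1
  rw [hwN] at hmain
  have hlog : Real.log (t : ℝ) = q * Real.log 2 := by
    rw [ht]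
    push_cast
    rw [Real.log_pow]
  have hQR : (Q.natDegree : ℝ) ≤ (∑ l, (d l : ℝ) * mx κ l) - 2 := by
    have : ((Q.natDegree + 2 : ℕ) : ℝ) ≤ ((∑ l, d l * mx κ l : ℕ) : ℝ) := by exact_mod_cast hdeg
    push_cast at this
    linarith
  have hcnt' : ∑ᶠ v : HeightOneSpectrum (𝓞 K), min (ell v) (lam2 v d F x) ≤
      w * (((∑ l, (d l : ℝ) * mx κ l) - 1) * Real.log t) + c1 := by
    refine hcnt.trans ?_
    have hl0 : 0 ≤ Real.log ((2 ^ q : ℕ) : ℝ) := Real.log_natCast_nonneg _
    have h1 : (1 + (Q.natDegree : ℝ)) * Real.log ((2 ^ q : ℕ) : ℝ) ≤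
        ((∑ l, (d l : ℝ) * mx κ l) - 1) * Real.log ((2 ^ q : ℕ) : ℝ) :=
      mul_le_mul_of_nonneg_right (by linarith) hl0
    have h2 := mul_le_mul_of_nonneg_left h1 hw0.le
    rw [ht]
    linarith
  have hlow : ∀ l, (d l : ℝ) * (w * (mx κ l * Real.log t)) -
      ε * (w * (mx κ l * Real.log t) / w) - ((d l : ℝ) + |ε| / w) * γ l ≤
      (d l : ℝ) * logHeight ![x (l, 0), x (l, 1)] - ε * (logHeight ![x (l, 0), x (l, 1)] / w) := by
    intro l
    have h1 := abs_le.1 (hh l)
    have hd0 : (0 : ℝ) ≤ d l := Nat.cast_nonneg _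
    have h2 : (d l : ℝ) * (w * (mx κ l * Real.log t) - γ l) ≤
        (d l : ℝ) * logHeight ![x (l, 0), x (l, 1)] :=
      mul_le_mul_of_nonneg_left (by linarith [h1.1]) hd0
    have h3 : ε * (logHeight ![x (l, 0), x (l, 1)] - w * (mx κ l * Real.log t)) ≤ |ε| * γ l := by
      refine (le_abs_self _).trans ?_
      rw [abs_mul]
      exact mul_le_mul_of_nonneg_left (hh l) (abs_nonneg _)
    have h4 : ε * (logHeight ![x (l, 0), x (l, 1)] / w) - ε * (w * (mx κ l * Real.log t) / w) ≤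
        |ε| / w * γ l := by
      have h5 : ε * (logHeight ![x (l, 0), x (l, 1)] / w) - ε * (w * (mx κ l * Real.log t) / w) =
          ε * (logHeight ![x (l, 0), x (l, 1)] - w * (mx κ l * Real.log t)) / w := by ring
      have h6 : |ε| / w * γ l = |ε| * γ l / w := by ring
      rw [h5, h6]
      exact div_le_div_of_nonneg_right h3 hw0.le
    linarith
  have hsum := Finset.sum_le_sum fun l (_ : l ∈ (Finset.univ : Finset (Fin 2))) => hlow l
  rw [Finset.mul_sum, ← Finset.sum_sub_distrib] at hmain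
  have e1 : ∑ l, ((d l : ℝ) * (w * (mx κ l * Real.log t)) -
      ε * (w * (mx κ l * Real.log t) / w) - ((d l : ℝ) + |ε| / w) * γ l) =
      w * ((∑ l, (d l : ℝ) * mx κ l) * Real.log t) - ε * M * Real.log t -
        ∑ l, ((d l : ℝ) + |ε| / w) * γ l := by
    rw [hM]
    push_cast
    simp only [Fin.sum_univ_two]
    field_simp
    ring
  rw [e1] at hsum
  have e2 : w * (((∑ l, (d l : ℝ) * mx κ l) - 1) * Real.log t) =
      w * ((∑ l, (d l : ℝ) * mx κ l) * Real.log t) - w * Real.log t := by ring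
  rw [e2] at hcnt'
  have e3 : (δ * Real.log 2) * q = w * Real.log t - ε * M * Real.log t := by
    rw [hδ, hlog]
    ring
  rw [e3] at hq2
  linarith

end Pool.Agent.X323.PP
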