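import Pool.Agent.X323.PP.Core

set_option autoImplicit false

/-!
The bidegree of a curve on `ℙ¹ × ℙ¹` which contains many cosets of one-dimensional tori through a
point.
-/

namespace Pool.Agent.X323.PP

open Finset MvPolynomial Pool.Agent.W231.V Pool.Agent.X323.TV

variable {K : Type} [Field K] [Infinite K]

theorem eval_biscale {R : Type} [CommRing R] {H : MvPolynomial (Fin 2 × Fin 2) R} {e : Fin 2 → ℕ}
    (hH : BiHom H e) (c : Fin 2 → R) (x : Fin 2 × Fin 2 → R) :
    eval (fun p => c p.1 * x p) H = (∏ l, c l ^ e l) * eval x H := by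
  rw [eval_eq', eval_eq', Finset.mul_sum]
  refine Finset.sum_congr rfl fun s hs => ?_
  have h := hH s (mem_support_iff.1 hs)
  simp only [Fintype.prod_prod_type, Fin.prod_univ_two, mul_pow]
  rw [← h 0, ← h 1, pow_add, pow_add]
  ring

theorem degl {H : MvPolynomial (Fin 2 × Fin 2) K} {e : Fin 2 → ℕ} (hH : BiHom H e) (hH0 : H ≠ 0)
    {u : Fin 2 × Fin 2 → K} (hu : ∀ p, u p ≠ 0) {i j : Fin 2} (hij : i ≠ j) {ι : Type}
    (T : Finset ι) (k : ι → Fin 2 → ℕ) (hk : ∀ p ∈ T, 0 < k p j)
    (hcop : ∀ p ∈ T, Nat.Coprime (k p i) (k p j))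
    (hne : ∀ p ∈ T, ∀ q ∈ T, p ≠ q → k p i * k q j ≠ k p j * k q i)
    (hv : ∀ p ∈ T, onCurve u (fun z => if z.2 = 0 then k p z.1 else 0) H = 0) :
    ∑ p ∈ T, k p j ≤ e i := by
  classical
  have hl : ∀ l : Fin 2, l ≠ i → l = j := by
    intro l h
    have h1 : (l : ℕ) ≠ i := fun h' => h (Fin.ext h')
    have h2 : (i : ℕ) ≠ j := fun h' => hij (Fin.ext h')
    refine Fin.ext ?_
    have := l.2
    have := i.2
    have := j.2
    omega
  -- the restriction to the affine plane
  set f : Polynomial (Polynomial K) := eval₂ ((Polynomial.C : Polynomial K →+* _).comp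
    (Polynomial.C : K →+* _)) (fun z => if z.2 = 0 then (if z.1 = i then Polynomial.X else
      Polynomial.C Polynomial.X) else Polynomial.C (Polynomial.C (u z))) H with hf
  -- values of `f`
  have hfev : ∀ y : Fin 2 → K, (f.eval (Polynomial.C (y i))).eval (y j) =
      eval (fun z => if z.2 = 0 then y z.1 else u z) H := by
    intro y
    have h2 : (f.eval (Polynomial.C (y i))).eval (y j) =
        ((Polynomial.evalRingHom (y j)).comp
          (Polynomial.evalRingHom (Polynomial.C (y i)))) f := rfl
    rw [h2, hf, MvPolynomial.hom_eval₂]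
    have h3 : ((Polynomial.evalRingHom (y j)).comp
          (Polynomial.evalRingHom (Polynomial.C (y i)))).comp
        ((Polynomial.C : Polynomial K →+* _).comp (Polynomial.C : K →+* _)) =
          RingHom.id K := by
      ext c
      simp
    rw [h3]
    change eval₂ (RingHom.id K) _ H = eval₂ (RingHom.id K) _ H
    congr 1
    funext z
    by_cases h4 : z.2 = 0
    · by_cases h5 : z.1 = i
      · simp [h4, h5]
      · simp only [if_pos h4, if_neg h5, hl _ h5]
        simp [Ne.symm hij]
    · simp [h4]
  have hf0 : f ≠ 0 := by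
    intro h0
    -- a point off `H = 0` with nonzero coordinates
    obtain ⟨x, hx⟩ : ∃ x : Fin 2 × Fin 2 → K, eval x (H * ∏ p, X p) ≠ 0 := by
      by_contra hcon
      push Not at hcon
      have : H * ∏ p, X p = 0 := by
        refine MvPolynomial.funext fun x => ?_
        rw [hcon x, map_zero]
      rcases mul_eq_zero.1 this with h | h
      · exact hH0 h
      · exact Finset.prod_ne_zero_iff.2 (fun j _ => X_ne_zero j) h
    rw [map_mul, map_prod] at hx
    have hx1 := left_ne_zero_of_mul hx
    have hx2 : ∀ p, x p ≠ 0 := by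
      intro p hp
      apply right_ne_zero_of_mul hx
      refine Finset.prod_eq_zero (Finset.mem_univ p) ?_
      rw [eval_X, hp]
    set c : Fin 2 → K := fun l => u (l, 1) / x (l, 1) with hc
    have hc0 : ∀ l, c l ≠ 0 := fun l => div_ne_zero (hu _) (hx2 _)
    have h1 := eval_biscale hH c x
    have h2 := hfev (fun l => c l * x (l, 0))
    rw [h0, Polynomial.eval_zero, Polynomial.eval_zero] at h2
    have h3 : (fun z : Fin 2 × Fin 2 => if z.2 = 0 then (fun l => c l * x (l, 0)) z.1 else u z) =
        fun p => c p.1 * x p := by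
      funext ⟨l, m⟩
      fin_cases m
      · simp
      · simp [hc, hx2 (l, 1)]
    rw [h3, h1] at h2
    exact mul_ne_zero (Finset.prod_ne_zero_iff.2 fun l _ => pow_ne_zero _ (hc0 l)) hx1 h2.symm
  have hdeg : f.natDegree ≤ e i := by
    rw [hf, eval₂_eq']
    refine Polynomial.natDegree_sum_le_of_forall_le _ _ fun m hm => ?_
    have h := hH m (mem_support_iff.1 hm) i
    have hterm : ∀ z : Fin 2 × Fin 2, ((if z.2 = 0 then (if z.1 = i then Polynomial.X else
        Polynomial.C Polynomial.X) else Polynomial.C (Polynomial.C (u z)) :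
          Polynomial (Polynomial K)) ^ m z).natDegree ≤ if z = (i, 0) then m z else 0 := by
      rintro ⟨l, c⟩
      refine Polynomial.natDegree_pow_le.trans ?_
      by_cases h4 : c = 0
      · by_cases h5 : l = i
        · subst h4 h5
          simp
        · subst h4
          simp [h5]
      · simp [h4]
    calc _ ≤ (Polynomial.C (Polynomial.C (coeff m H)) : Polynomial (Polynomial K)).natDegree + _ :=
          Polynomial.natDegree_mul_le
      _ ≤ 0 + ∑ z : Fin 2 × Fin 2, (if z = (i, 0) then m z else 0) := by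
          refine add_le_add (by rw [Polynomial.natDegree_C]) ?_
          exact (Polynomial.natDegree_prod_le _ _).trans (Finset.sum_le_sum fun z _ => hterm z)
      _ = m (i, 0) := by rw [zero_add, Finset.sum_ite_eq' Finset.univ (i, 0)]; simp
      _ ≤ e i := by omega
  refine (degree_bound T (fun p => k p i) (fun p => k p j) (fun _ => u (i, 0)) (fun _ => u (j, 0))
    (fun _ _ => hu _) (fun _ _ => hu _) hk hcop hne f hf0 fun p hp => ?_).trans hdeg
  rw [← hv p hp, hf, MvPolynomial.hom_eval₂]
  unfold onCurve
  rw [aeval_def]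
  have h4 : (crv (u (i, 0)) (u (j, 0)) (k p i) (k p j)).comp
      ((Polynomial.C : Polynomial K →+* _).comp (Polynomial.C : K →+* _)) =
        algebraMap K (Polynomial K) := by
    ext c
    simp [crv_C, sub_C]
  rw [h4]
  congr 1
  funext ⟨l, c⟩
  by_cases h5 : c = 0
  · subst h5
    by_cases h6 : l = i
    · subst h6
      simp [crv_X]
    · have h7 := hl l h6
      subst h7
      simp [h6, crv_C, sub_X]
  · simp [h5, crv_C, sub_C]

end Pool.Agent.X323.PP
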